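import Pool.Agent.helper37.L5.Spec

/-!
# Row TRE of project L5
-/

set_option autoImplicit false

namespace Pool.Agent.L5

open Pool.Agent.helper58.DC Pool.Agent.DI Pool.Agent.GR Pool.Agent.OB Pool.Agent.DR Pool.Agent.FI Pool.Agent.FI3 Pool.Agent.FI4 Pool.Agent.FI4I Pool.Agent.LE

theorem TRE_van {G : Type} [Group G] {N H : Subgroup G} (hH : H ≤ N) {ψ : G → ℂ} (hψ : ψ ∈ IrrOn H) :
    ∀ x, x ∉ N → ψ x = 0 := fun x hx => hψ.1 x (fun h => hx (hH h))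

theorem TRE (hTR1 : TR1_stmt) (hTR2 : TR2_stmt) (hTR4 : TR4_stmt) : TRE_stmt := by
  intro p M hM G _ _ N H hH θ hθ
  have hθN : ∀ x, x ∉ N → θ x = 0 := fun x hx => hθ x (fun h => hx (hH h))
  obtain ⟨a1, a2, a3⟩ := hTR1 G N H hH
  have key : ∀ ζ ∈ IrrOn H, (SB M H ζ θ ↔ SB M (H.subgroupOf N) (rN N ζ) (rN N θ)) := fun ζ hζ =>
    (hTR2 G M N).2.1 H hH ζ θ (TRE_van hH hζ) hθN
  unfold Le
  symm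
  refine finsum_mem_eq_of_bijOn (rN N) ⟨?_, ?_, ?_⟩ ?_
  · rintro ζ ⟨hζ, hs⟩
    exact ⟨(a1 ζ (TRE_van hH hζ)).1 hζ, (key ζ hζ).1 hs⟩
  · rintro ζ ⟨hζ, -⟩ ζ' ⟨hζ', -⟩ he
    exact a3 ζ ζ' (TRE_van hH hζ) (TRE_van hH hζ') he
  · rintro ζ' ⟨hζ', hi⟩
    obtain ⟨ζ, hζ, rfl⟩ := a2 ζ' hζ'
    exact ⟨ζ, ⟨hζ, (key ζ hζ).2 hi⟩, rfl⟩
  · rintro ζ ⟨hζ, -⟩
    exact ((hTR4 p G N H hH ζ ζ).1).symm

end Pool.Agent.L5
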